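import Pool.Agent.Helper27.EX.IDefs
import Pool.Agent.Helper62.EX.TB

/-!
# MP_2857a5_co : module FI, from the placement of the special vertices to `MetData`
-/

set_option autoImplicit false

open Finset
open scoped Classical

namespace OT

noncomputable section

theorem fi_arc_nb {n : ℕ} {T : PTree n} {x y : Fin n} (h : T.Arc x y) : T.Nb x y := by
  rcases h with ⟨h0, h1, _⟩ | ⟨h0, h1, _⟩
  · exact Or.inl ⟨h0, h1⟩
  · exact Or.inr ⟨h0, h1⟩

theorem fi_adj_nb {n : ℕ} {T : PTree n} {s : Bool} {x y : Fin n} (h : Adj T.Arc s x y) :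
    T.Nb x y := by
  cases s
  · have h' : T.Arc y x := by simpa [Adj] using h
    exact (fi_arc_nb h').symm
  · have h' : T.Arc x y := by simpa [Adj] using h
    exact fi_arc_nb h'

theorem fi_nb_irrefl {n : ℕ} (T : PTree n) (x : Fin n) : ¬ T.Nb x x := by
  intro h
  rcases h with ⟨h0, h1⟩ | ⟨h0, h1⟩
  · have := T.lt x h0
    rw [h1] at this
    exact lt_irrefl _ this
  · have := T.lt x h0
    rw [h1] at this
    exact lt_irrefl _ this

theorem fi_arc_asymm {n : ℕ} {T : PTree n} {x y : Fin n} (h : T.Arc x y) : ¬ T.Arc y x := by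
  intro h'
  rcases h with ⟨h0, h1, h2⟩ | ⟨h0, h1, h2⟩ <;> rcases h' with ⟨g0, g1, g2⟩ | ⟨g0, g1, g2⟩
  · have e1 := T.lt y h0
    have e2 := T.lt x g0
    rw [h1] at e1
    rw [g1] at e2
    exact lt_irrefl _ (e1.trans e2)
  · rw [h2] at g2
    exact absurd g2 (by simp)
  · rw [h2] at g2
    exact absurd g2 (by simp)
  · have e1 := T.lt x h0
    have e2 := T.lt y g0
    rw [h1] at e1
    rw [g1] at e2
    exact lt_irrefl _ (e1.trans e2)

theorem fi_adj_unique {n : ℕ} {T : PTree n} {s s' : Bool} {x y : Fin n} (h : Adj T.Arc s x y)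
    (h' : Adj T.Arc s' x y) : s = s' := by
  cases s <;> cases s'
  · rfl
  · have h1 : T.Arc y x := by simpa [Adj] using h
    have h2 : T.Arc x y := by simpa [Adj] using h'
    exact absurd h1 (fi_arc_asymm h2)
  · have h1 : T.Arc x y := by simpa [Adj] using h
    have h2 : T.Arc y x := by simpa [Adj] using h'
    exact absurd h2 (fi_arc_asymm h1)
  · rfl

theorem fi_card_nb {n : ℕ} {Δ : ℕ} (T : PTree n) (hT : T.Deg Δ) (x : Fin n) :
    (univ.filter fun y => T.Nb x y).card ≤ Δ + 1 := by
  have h : (univ.filter fun y => T.Nb x y) ⊆ insert (T.par x) (T.ch x) := by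
    intro y hy
    rw [mem_filter] at hy
    rcases hy.2 with ⟨h0, h1⟩ | ⟨_, h1⟩
    · exact mem_insert_of_mem (tb_mem_ch.2 ⟨h0, h1⟩)
    · rw [h1]
      exact mem_insert_self _ _
  refine (card_le_card h).trans ((card_insert_le _ _).trans ?_)
  exact Nat.add_le_add_right (hT x) 1

theorem fi_index {n : ℕ} {Δ : ℕ} (T : PTree n) (hT : T.Deg Δ) :
    ∃ ix : Fin n → Fin n → Fin (Δ + 1), ∀ x y y', T.Nb x y → T.Nb x y' → ix x y = ix x y' →
      y = y' := by
  refine ⟨fun x y => if h : y ∈ univ.filter (fun y => T.Nb x y) then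
    Fin.castLE (fi_card_nb T hT x) ((univ.filter fun y => T.Nb x y).equivFin ⟨y, h⟩) else 0, ?_⟩
  intro x y y' hy hy' h
  have hy1 : y ∈ univ.filter (fun y => T.Nb x y) := mem_filter.2 ⟨mem_univ _, hy⟩
  have hy1' : y' ∈ univ.filter (fun y => T.Nb x y) := mem_filter.2 ⟨mem_univ _, hy'⟩
  simp only [hy1, hy1', dif_pos] at h
  have h2 := (univ.filter fun y => T.Nb x y).equivFin.injective (Fin.castLE_injective _ h)
  exact congrArg Subtype.val h2

theorem finI {n : ℕ} (Δ : ℕ) (T : PTree n) (hT : T.Deg Δ) {V : Type} [Fintype V]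
    (hV : Fintype.card V = n) (D : V → V → Prop) (B C : Finset V) (hBC : Disjoint B C) (γ : ℝ)
    (G K : Finset V) (dl : V → Bool) (lv : V → Fin (Δ + 1) → V) (hs : Stk D Δ G K dl lv)
    (Sp : Finset (Fin n)) (ψ : Fin n → V) (side : Fin n → Bool)
    (sep : ∀ a ∈ Sp, ∀ b ∈ Sp, a ≠ b → b ∉ T.ball 3 a) (inj : Set.InjOn ψ Sp)
    (all : ∀ v, v ∉ B → v ∉ C → v ∈ Sp.image ψ)
    (stock : ∀ v ∈ Sp.image ψ, v ∈ B ∪ C → v ∈ G ∪ K)
    (arc : ∀ x y, T.Arc x y → x ∉ Sp → y ∉ Sp → side x = side y)
    (host : ∀ x ∈ Sp, ∀ s y, Adj T.Arc s x y → Us D B C γ G dl lv (ψ x) s (side y))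
    (count : (univ.filter fun y => y ∉ Sp ∧ side y = true).card = (B \ Sp.image ψ).card) :
    ∃ (Lf : Finset (Fin n)) (lam : Fin n → V),
      MetData D T (sd B C) (fun k l => k = l) γ Sp ψ side Lf lam := by
  obtain ⟨ix, hix⟩ := fi_index T hT
  -- the centre of a neighbour of a special vertex is unique
  have huniq : ∀ x ∈ Sp, ∀ x' ∈ Sp, ∀ y, T.Nb x y → T.Nb x' y → x = x' := by
    intro x hx x' hx' y h h'
    by_contra hne
    refine sep x hx x' hx' hne ?_
    have h2 : x' ∈ T.ball (1 + 1) x := PTree.ball_trans h.mem_ball h'.symm.mem_ball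
    exact T.ball_mono (by norm_num) x h2
  have hnsp : ∀ x ∈ Sp, ∀ y, T.Nb x y → y ∉ Sp := by
    intro x hx y h hy
    by_cases hxy : x = y
    · rw [← hxy] at h
      exact fi_nb_irrefl T x h
    · exact sep x hx y hy hxy (T.ball_mono (by norm_num) x h.mem_ball)
  let ctr : Fin n → Fin n := fun y => if h : ∃ x ∈ Sp, T.Nb x y then h.choose else y
  have hctr : ∀ x ∈ Sp, ∀ y, T.Nb x y → ctr y = x := by
    intro x hx y hxy
    have h : ∃ x ∈ Sp, T.Nb x y := ⟨x, hx, hxy⟩
    have h1 : ctr y = h.choose := by simp only [ctr, dif_pos h]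
    rw [h1]
    exact huniq _ h.choose_spec.1 x hx y h.choose_spec.2 hxy
  let Lf : Finset (Fin n) := univ.filter fun y => y ∉ Sp ∧
    ∃ x ∈ Sp, ∃ s, Adj T.Arc s x y ∧ ¬ Fr D B C γ (ψ x) s (side y)
  let lam : Fin n → V := fun y => lv (ψ (ctr y)) (ix (ctr y) y)
  -- the facts about `Lf`
  have hLf : ∀ y ∈ Lf, ∃ x ∈ Sp, ∃ s, Adj T.Arc s x y ∧ ψ x ∈ G ∧ dl (ψ x) = s ∧
      (∀ j, lv (ψ x) j ∈ sd B C (side y)) ∧ lam y = lv (ψ x) (ix x y) ∧ T.Nb x y := by
    intro y hy
    obtain ⟨_, x, hx, s, hs1, hs2⟩ := (mem_filter.1 hy).2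
    rcases host x hx s y hs1 with h | ⟨h1, h2, h3⟩
    · exact absurd h hs2
    · have hnb := fi_adj_nb hs1
      exact ⟨x, hx, s, hs1, h1, h2, h3, by simp only [lam, hctr x hx y hnb], hnb⟩
  have hsub : ∀ k, sd B C k ⊆ B ∪ C := by
    intro k
    cases k
    · simp [sd]
    · simp [sd]
  have hfr : ∀ x ∈ Sp, ∀ y, y ∉ Lf → ∀ s, Adj T.Arc s x y →
      γ * (n : ℝ) ≤ ((sd B C (side y) ∩ adjN D s (ψ x)).card : ℝ) := by
    intro x hx y hy s hxy
    by_contra hcon
    refine hy (mem_filter.2 ⟨mem_univ _, hnsp x hx y (fi_adj_nb hxy), x, hx, s, hxy, ?_⟩)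
    intro hF
    unfold Fr at hF
    rw [hV] at hF
    exact hcon hF
  refine ⟨Lf, lam, ?_⟩
  refine ⟨sep, inj, ?_, arc, ?_, ?_, ?_, ?_, ?_, ?_, ?_⟩
  · intro v hv
    exact all v (by simpa [sd] using hv true) (by simpa [sd] using hv false)
  · intro y hy y' hy' h
    obtain ⟨x, hx, s, _, hG, _, _, hl, hnb⟩ := hLf y hy
    obtain ⟨x', hx', s', _, hG', _, _, hl', hnb'⟩ := hLf y' hy'
    rw [hl, hl'] at h
    obtain ⟨h1, h2⟩ := hs.inj _ hG _ hG' _ _ h
    have hxx : x = x' := inj hx hx' h1
    subst hxx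
    exact hix x y y' hnb hnb' h2
  · intro y hy
    obtain ⟨x, hx, s, _, hG, _, hl3, hl, hnb⟩ := hLf y hy
    have h1 : lam y ∈ sd B C (side y) := by rw [hl]; exact hl3 _
    refine ⟨(mem_filter.1 hy).2.1, h1, ?_⟩
    intro h2
    have h3 := stock _ h2 (hsub _ h1)
    rw [hl] at h3
    exact hs.off _ hG _ h3
  · intro x hx y hy hxy
    obtain ⟨x', hx', s, hs1, hG, hd, _, hl, hnb⟩ := hLf y hy
    have hxx : x = x' := huniq x hx x' hx' y (fi_arc_nb hxy) hnb
    subst hxx
    have hs2 : Adj T.Arc true x y := by simpa [Adj] using hxy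
    have hst : s = true := fi_adj_unique hs1 hs2
    have h4 := hs.adj _ hG (ix x y)
    rw [hd, hst] at h4
    rw [hl]
    simpa [Adj] using h4
  · intro x hx y hy hxy
    obtain ⟨x', hx', s, hs1, hG, hd, _, hl, hnb⟩ := hLf y hy
    have hxx : x = x' := huniq x hx x' hx' y (fi_arc_nb hxy).symm hnb
    subst hxx
    have hs2 : Adj T.Arc false x y := by simpa [Adj] using hxy
    have hst : s = false := fi_adj_unique hs1 hs2
    have h4 := hs.adj _ hG (ix x y)
    rw [hd, hst] at h4
    rw [hl]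
    simpa [Adj] using h4
  · intro x hx y hy hxy
    exact hfr x hx y hy true (by simpa [Adj] using hxy)
  · intro x hx y hy hxy
    exact hfr x hx y hy false (by simpa [Adj] using hxy)
  · intro k
    cases k
    · -- by complement
      have e1 : (univ.filter fun y => y ∉ Sp ∧ side y = true).card +
          (univ.filter fun y => y ∉ Sp ∧ side y = false).card + Sp.card = n := by
        have h1 : (univ.filter fun y : Fin n => y ∉ Sp ∧ side y = true) ∪
            (univ.filter fun y => y ∉ Sp ∧ side y = false) = univ \ Sp := by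
          ext y
          simp only [mem_union, mem_filter, mem_univ, true_and, mem_sdiff]
          cases side y <;> simp
        have h2 : Disjoint (univ.filter fun y : Fin n => y ∉ Sp ∧ side y = true)
            (univ.filter fun y => y ∉ Sp ∧ side y = false) := by
          rw [disjoint_left]
          intro y hy hy'
          have a := (mem_filter.1 hy).2.2
          have b := (mem_filter.1 hy').2.2
          rw [a] at b
          exact absurd b (by simp)
        rw [← card_union_of_disjoint h2, h1, card_sdiff_add_card, union_eq_left.2 (subset_univ _),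
          card_univ, Fintype.card_fin]
      have e2 : (B \ Sp.image ψ).card + (C \ Sp.image ψ).card + (Sp.image ψ).card = n := by
        have h1 : (B \ Sp.image ψ) ∪ (C \ Sp.image ψ) = univ \ Sp.image ψ := by
          ext v
          simp only [mem_union, mem_sdiff, mem_univ, true_and]
          constructor
          · rintro (h | h)
            · exact h.2
            · exact h.2
          · intro h
            by_cases hB : v ∈ B
            · exact Or.inl ⟨hB, h⟩
            · by_cases hC : v ∈ C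
              · exact Or.inr ⟨hC, h⟩
              · exact absurd (all v hB hC) h
        have h2 : Disjoint (B \ Sp.image ψ) (C \ Sp.image ψ) :=
          disjoint_of_subset_left sdiff_subset (disjoint_of_subset_right sdiff_subset hBC)
        rw [← card_union_of_disjoint h2, h1, card_sdiff_add_card, union_eq_left.2 (subset_univ _),
          card_univ, hV]
      have e3 : (Sp.image ψ).card = Sp.card := card_image_of_injOn inj
      have e4 : sd B C false = C := by simp [sd]
      have e5 : (univ.filter fun y => y ∉ Sp ∧ side y = false).card = (C \ Sp.image ψ).card := by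
        omega
      rw [e4]
      convert e5
    · have e4 : sd B C true = B := by simp [sd]
      rw [e4]
      convert count

end

end OT
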